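import Pool.Agent.W848.N2.Stm

set_option autoImplicit false

/-! N2-SUM: numerical lemma for sorted sequences. -/

namespace Pool.Agent.W899.N2.SUM

open Finset

/-- `∑_{j < 3ℓ} c (j/3) = 3 ∑_{i < ℓ} c i`. -/
theorem sum3 (c : ℕ → ℝ) (l : ℕ) :
    ∑ j ∈ range (3 * l), c (j / 3) = 3 * ∑ i ∈ range l, c i := by
  induction l with
  | zero => simp
  | succ l ih =>
    have e : 3 * (l + 1) = 3 * l + 1 + 1 + 1 := by ring
    rw [e, sum_range_succ, sum_range_succ, sum_range_succ, ih, sum_range_succ]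
    have e1 : 3 * l / 3 = l := by omega
    have e2 : (3 * l + 1) / 3 = l := by omega
    have e3 : (3 * l + 1 + 1) / 3 = l := by omega
    rw [e1, e2, e3]
    ring

theorem sum_le3 (c : ℕ → ℝ) (l : ℕ) (hc : ∀ i, i < l → 0 ≤ c i) :
    ∑ j ∈ range l, c (j / 3) ≤ 3 * ∑ i ∈ range l, c i := by
  rw [← sum3]
  refine sum_le_sum_of_subset_of_nonneg ?_ ?_
  · intro x hx
    rw [mem_range] at hx ⊢
    omega
  · intro j hj _
    rw [mem_range] at hj
    exact hc _ (by omega)

theorem step (n : ℕ) (a : ℕ → ℝ) (m : ℝ) (hm : 3 ≤ m) (ha : ∀ i j, i ≤ j → j < n → a i ≤ a j)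
    (l : ℕ) (hl : 0 < l) (hln : 2 * l ≤ n + 1) (ht : a (l - 1) + a (n - l) < 0)
    (h : ∀ j, j < l → -3 * a j - (m - 3) * a (l - 1) - (m - 1) * a (n - l) ≤ a (n - 1 - j / 3)) :
    0 ≤ ∑ i ∈ range l, (a i + a (n - 1 - i)) := by
  set t := a (l - 1) with htd
  set q := a (n - l) with hqd
  have h1 : ∑ j ∈ range l, (-3 * a j - (m - 3) * t - (m - 1) * q) ≤
      ∑ j ∈ range l, a (n - 1 - j / 3) :=
    sum_le_sum (fun j hj => h j (mem_range.1 hj))
  have h2 : ∑ j ∈ range l, (-3 * a j - (m - 3) * t - (m - 1) * q) =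
      -3 * ∑ j ∈ range l, a j - l * ((m - 3) * t + (m - 1) * q) := by
    rw [sum_sub_distrib, sum_sub_distrib, ← mul_sum, sum_const, sum_const, card_range,
      nsmul_eq_mul, nsmul_eq_mul]
    ring
  have h3 := sum_le3 (fun i => a (n - 1 - i) - q) l (by
    intro i hi
    have : a (n - l) ≤ a (n - 1 - i) := ha _ _ (by omega) (by omega)
    rw [hqd]
    linarith)
  rw [sum_sub_distrib, sum_sub_distrib, sum_const, card_range, nsmul_eq_mul] at h3
  rw [sum_add_distrib]
  have h4 : (l : ℝ) * (m - 3) * (t + q) ≤ 0 := by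
    have hl0 : (0 : ℝ) ≤ l := Nat.cast_nonneg l
    have : 0 ≤ (l : ℝ) * (m - 3) := mul_nonneg hl0 (by linarith)
    nlinarith
  nlinarith

theorem S_nonneg (n : ℕ) (a : ℕ → ℝ) (m : ℝ) (hm : 3 ≤ m)
    (ha : ∀ i j, i ≤ j → j < n → a i ≤ a j)
    (h : ∀ l, 0 < l → 2 * l ≤ n + 1 → a (l - 1) + a (n - l) < 0 →
      ∀ j, j < l → -3 * a j - (m - 3) * a (l - 1) - (m - 1) * a (n - l) ≤ a (n - 1 - j / 3))
    (l : ℕ) (hl : 2 * l ≤ n + 1) : 0 ≤ ∑ i ∈ range l, (a i + a (n - 1 - i)) := by
  induction l with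
  | zero => simp
  | succ l ih =>
    by_cases hneg : a l + a (n - (l + 1)) < 0
    · exact step n a m hm ha (l + 1) (by omega) hl hneg (h (l + 1) (by omega) hl hneg)
    · rw [sum_range_succ]
      have h1 := ih (by omega)
      have e : n - 1 - l = n - (l + 1) := by omega
      rw [e]
      linarith

theorem t_SUM : Pool.Agent.W848.N2.S_SUM := by
  intro n a m hm ha h
  have hS := S_nonneg n a m hm ha h
  obtain ⟨r, hr⟩ := Nat.even_or_odd' n
  rcases hr with rfl | rfl
  · have h1 := hS r (by omega)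
    have e : (2 * r) = r + r := by ring
    have e2 : ∑ i ∈ range (2 * r), a i = ∑ i ∈ range r, (a i + a (2 * r - 1 - i)) := by
      conv_lhs => rw [e]
      rw [sum_range_add, sum_add_distrib]
      congr 1
      rw [← sum_range_reflect (fun j => a (r + j)) r]
      refine sum_congr rfl (fun i hi => ?_)
      rw [mem_range] at hi
      congr 1
      omega
    rw [e2]
    exact h1
  · have h1 := hS r (by omega)
    have h2 := hS (r + 1) (by omega)
    rw [sum_range_succ] at h2
    have e : (2 * r + 1) = r + (r + 1) := by ring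
    have e2 : ∑ i ∈ range (2 * r + 1), a i =
        ∑ i ∈ range r, (a i + a (2 * r + 1 - 1 - i)) + a r := by
      conv_lhs => rw [e]
      rw [sum_range_add, sum_add_distrib]
      rw [← sum_range_reflect (fun j => a (r + j)) (r + 1), sum_range_succ, ← add_assoc]
      congr 1
      · congr 1
        refine sum_congr rfl (fun i hi => ?_)
        rw [mem_range] at hi
        congr 1
        omega
      · congr 1
        omega
    rw [e2]
    have e3 : 2 * r + 1 - 1 - r = r := by omega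
    rw [e3] at h2
    by_cases h0 : 0 ≤ a r
    · linarith
    · linarith

end Pool.Agent.W899.N2.SUM
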